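import Pool.Agent.H73.LPC.Stmts
import Pool.Agent.H79.TC.Osg

/-!
Board `lpc`, row LIX (helper80): limits
-/

set_option autoImplicit false

open Set Filter Topology MeasureTheory Metric

namespace Pool.LPC

open Pool.PHS

theorem LIX_thm (h1 : MXPStmt) : LIXStmt := by
  intro n δ F g hδ hδ1 hF hlim
  have hsub : HF δ ⊆ BD δ := fun p hp => ⟨hp.1, hp.2.1⟩
  have hopen : IsOpen (BD δ) := by
    have e1 : IsOpen {p : ℂ × ℂ | ‖p.1‖ < 1 + δ} :=
      isOpen_lt (continuous_norm.comp continuous_fst) continuous_const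
    have e2 : IsOpen {p : ℂ × ℂ | ‖p.2‖ < 1 + δ} :=
      isOpen_lt (continuous_norm.comp continuous_snd) continuous_const
    exact e1.inter e2
  have hC : UniformCauchySeqOn F atTop (HF δ) := hlim.uniformCauchySeqOn
  have hC2 : UniformCauchySeqOn F atTop (BD δ) := by
    rw [Metric.uniformCauchySeqOn_iff] at hC ⊢
    intro ε hε
    obtain ⟨N, hN⟩ := hC (ε / 2) (half_pos hε)
    refine ⟨N, fun m hm k hk p hp => ?_⟩
    have h2 := h1 n δ (ε / 2) (fun q => F m q - F k q) hδ hδ1 ((hF m).sub (hF k))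
      (fun q hq => by
        rw [← dist_eq_norm]
        exact (hN m hm k hk q hq).le) p hp
    rw [dist_eq_norm]
    linarith
  have hex : ∀ p ∈ BD δ, ∃ y, Tendsto (fun j => F j p) atTop (𝓝 y) := by
    intro p hp
    refine cauchySeq_tendsto_of_complete ?_
    rw [Metric.cauchySeq_iff]
    intro ε hε
    rw [Metric.uniformCauchySeqOn_iff] at hC2
    obtain ⟨N, hN⟩ := hC2 ε hε
    exact ⟨N, fun m hm k hk => hN m hm k hk p hp⟩
  choose! G hG using hex
  have hun : TendstoUniformlyOn F G atTop (BD δ) := hC2.tendstoUniformlyOn_of_tendsto hG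
  refine ⟨G, ?_, hun, ?_⟩
  · exact Pool.Agent.H63.TC.osg_limit hopen (Eventually.of_forall hF)
      hun.tendstoLocallyUniformlyOn
  · intro p hp
    exact tendsto_nhds_unique (hG p (hsub hp)) (hlim.tendsto_at hp)

end Pool.LPC
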